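import Pool.Agent.DPL.StmtsC
import Pool.Agent.Helper59_DPS.All
import Pool.Agent.Helper88_DPS.Dq
import Pool.Agent.Helper33_DPS.Gen

/-!
MP_d97b4e_co, squad DPL, row QTW: the form and its weights.
-/

set_option autoImplicit false

namespace Pool.Agent.DPL.H65

open Finset Polynomial Pool.Agent.DPS Pool.Agent.DPL

theorem ip_fsum {n k : ℕ} (s : Finset ℕ) (f : KS n k → ℝ) (g : ℕ → KS n k → ℝ) :
    ip f (∑ l ∈ s, g l) = ∑ l ∈ s, ip f (g l) := by
  unfold ip
  rw [Finset.sum_comm]
  refine Finset.sum_congr rfl fun F _ => ?_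
  rw [Finset.sum_apply, Finset.mul_sum]

theorem ip_sm {n k : ℕ} (c : ℝ) (f g : KS n k → ℝ) : ip f (c • g) = c * ip f g := by
  unfold ip
  rw [Finset.mul_sum]
  refine Finset.sum_congr rfl fun F _ => ?_
  rw [Pi.smul_apply, smul_eq_mul]
  ring

theorem qtw (ide : IDEStmt) (ply : PLYStmt) (lze : LZEStmt) (wel : WELStmt) : QTWStmt := by
  intro n k r hn hr1 hrk lam κ
  obtain ⟨b, hb⟩ := ply n k r (L2 r lam κ)
  obtain ⟨i1, i2, i3, -⟩ := ide n k hn
  -- the form in levels
  have hS : ∀ f : KS n k → ℝ, ∑ R ∈ powersetCard r (univ : Finset (Fin n)), wf (L2 r lam κ) f R ^ 2 =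
      ∑ l ∈ Finset.range (k + 1), b.eval (y n l) * lw n k l f := by
    intro f
    rw [hb f, i1 b f, ip_fsum]
    refine Finset.sum_congr rfl fun l _ => ?_
    rw [ip_sm]
    rfl
  have hE : ∀ (l : ℕ), l ≤ k → ∀ f : KS n k → ℝ, b.eval (y n l) * lw n k l f =
      ∑ R ∈ powersetCard r (univ : Finset (Fin n)), wf (L2 r lam κ) (E n k l f) R ^ 2 := by
    intro l hl f
    rw [hb (E n k l f), i2 b l hl f, ip_sm, ← i3 l hl f]
  have hA : ∀ (l : ℕ), 1 ≤ l → l ≤ r → ∀ f : KS n k → ℝ, b.eval (y n l) * lw n k l f =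
      (ta n k r l κ ^ 2 * (mp n k r).eval (y n l)) * lw n k l f := by
    intro l hl1 hlr f
    have hlk : l ≤ k := hlr.trans hrk
    rw [hE l hlk f]
    have h1 : ∑ R ∈ powersetCard r (univ : Finset (Fin n)), wf (L2 r lam κ) (E n k l f) R ^ 2 =
        ta n k r l κ ^ 2 * ∑ R ∈ powersetCard r (univ : Finset (Fin n)), dg (E n k l f) R ^ 2 := by
      rw [Finset.mul_sum]
      refine Finset.sum_congr rfl fun R hR => ?_
      rw [wel n k l r hn hr1 hrk hl1 hlk lam κ f R (Finset.mem_powersetCard.1 hR).2, if_pos hlr]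
      ring
    rw [h1, ← Pool.Agent.DPS.H88.qua n k r (E n k l f), ← Pool.Agent.DPS.H59.mpo' n k r hrk,
      i2 (mp n k r) l hlk f, ip_sm, ← i3 l hlk f]
    ring
  have hB : ∀ (l : ℕ), r < l → l ≤ k → ∀ f : KS n k → ℝ, b.eval (y n l) * lw n k l f = 0 := by
    intro l hrl hlk f
    rw [hE l hlk f]
    refine Finset.sum_eq_zero fun R hR => ?_
    rw [wel n k l r hn hr1 hrk (by omega) hlk lam κ f R (Finset.mem_powersetCard.1 hR).2,
      if_neg (by omega)]
    norm_num
  refine ⟨fun l => if l = 0 then b.eval (y n 0) else if l ≤ r then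
    ta n k r l κ ^ 2 * (mp n k r).eval (y n l) else 0, ?_, ?_, ?_, ?_⟩
  · -- level 0
    show 0 ≤ if (0 : ℕ) = 0 then b.eval (y n 0) else _
    rw [if_pos rfl]
    obtain ⟨f, hf⟩ : ∃ f : KS n k → ℝ, f = fun _ => 1 := ⟨_, rfl⟩
    have h1 := lze n k hn f
    have h2 : (0 : ℝ) < (∑ F, f F) ^ 2 := by
      have hne : Nonempty (KS n k) := by
        obtain ⟨F, -, hF⟩ := Finset.exists_subset_card_eq
          (show k ≤ (Finset.univ : Finset (Fin n)).card by
            rw [Finset.card_univ, Fintype.card_fin]; omega)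
        exact ⟨⟨F, hF⟩⟩
      have h3 : (0 : ℝ) < ∑ F, f F := by
        rw [hf]
        exact Finset.sum_pos (fun _ _ => one_pos) Finset.univ_nonempty
      positivity
    rw [← h1] at h2
    have h4 : 0 < lw n k 0 f := by
      by_contra h5
      have h6 : lw n k 0 f * (n.choose k : ℝ) ≤ 0 :=
        mul_nonpos_of_nonpos_of_nonneg (not_lt.1 h5) (Nat.cast_nonneg _)
      linarith
    have h7 : 0 ≤ b.eval (y n 0) * lw n k 0 f := by
      rw [hE 0 (Nat.zero_le k) f]
      exact Finset.sum_nonneg fun R _ => sq_nonneg _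
    exact nonneg_of_mul_nonneg_left h7 h4
  · intro l hl1 hlr
    show (if l = 0 then _ else if l ≤ r then _ else _) = _
    rw [if_neg (by omega), if_pos hlr]
  · intro l hl
    show (if l = 0 then _ else if l ≤ r then _ else _) = _
    rw [if_neg (by omega), if_neg (by omega)]
  · intro f
    rw [hS f]
    refine Finset.sum_congr rfl fun l hl => ?_
    rw [Finset.mem_range] at hl
    show _ = (if l = 0 then _ else if l ≤ r then _ else _) * _
    split_ifs with h0 h1
    · rw [h0]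
    · exact hA l (by omega) h1 f
    · rw [hB l (by omega) (by omega) f, zero_mul]

end Pool.Agent.DPL.H65
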